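import Pool.Agent.Y674.HY.Stm

/-!
# Project HY, the statement EXPS: Taylor expansion of the square root with an error term
-/

set_option autoImplicit false

namespace Pool.Agent.Y405.HY

open Polynomial Finset

/-- the Taylor coefficients of the square root of `1 - X` -/
noncomputable def bt : ℕ → ℝ
  | 0 => 1
  | (j + 1) => - 2 * (catalan j : ℝ) / 4 ^ (j + 1)

theorem catalan_ne (n : ℕ) : catalan n ≠ 0 := by
  intro h
  have h1 := succ_mul_catalan_eq_centralBinom n
  rw [h, mul_zero] at h1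
  exact (Nat.centralBinom_pos n).ne h1

theorem bt_ne (j : ℕ) : bt j ≠ 0 := by
  cases j with
  | zero => exact one_ne_zero
  | succ j =>
    show - 2 * (catalan j : ℝ) / 4 ^ (j + 1) ≠ 0
    have h1 : (catalan j : ℝ) ≠ 0 := by exact_mod_cast catalan_ne j
    have h2 : (4 : ℝ) ^ (j + 1) ≠ 0 := by positivity
    exact div_ne_zero (mul_ne_zero (by norm_num) h1) h2

theorem bt_conv (n : ℕ) : ∑ p ∈ antidiagonal (n + 2), bt p.1 * bt p.2 = 0 := by
  rw [Finset.Nat.sum_antidiagonal_succ, Finset.Nat.sum_antidiagonal_succ']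
  have h1 : ∑ p ∈ antidiagonal n, bt (p.1 + 1) * bt (p.2 + 1) =
      4 * (catalan (n + 1) : ℝ) / 4 ^ (n + 2) := by
    rw [catalan_succ', Nat.cast_sum, mul_sum, sum_div]
    refine sum_congr rfl fun p hp => ?_
    have hp' := mem_antidiagonal.mp hp
    show (- 2 * (catalan p.1 : ℝ) / 4 ^ (p.1 + 1)) * (- 2 * (catalan p.2 : ℝ) / 4 ^ (p.2 + 1)) = _
    rw [← hp', Nat.cast_mul, div_mul_div_comm, ← pow_add]
    congr 1
    · ring
    · congr 1
      omega
  have h2 : bt (n + 2) = - 2 * (catalan (n + 1) : ℝ) / 4 ^ (n + 2) := rfl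
  have h3 : bt 0 = 1 := rfl
  simp only [] at *
  rw [h1]
  show bt 0 * bt (n + 1 + 1) + (bt (n + 1 + 1) * bt 0 + _) = 0
  rw [h3, show n + 1 + 1 = n + 2 from rfl, h2]
  ring

/-- the truncated Taylor series -/
noncomputable def tay (d : ℕ) : ℂ[X] := ∑ j ∈ range (d + 1), C ((bt j : ℝ) : ℂ) * X ^ j

theorem coeff_tay (d n : ℕ) : (tay d).coeff n = if n ≤ d then ((bt n : ℝ) : ℂ) else 0 := by
  rw [tay, finsetSum_coeff]
  simp only [coeff_C_mul, coeff_X_pow, mul_ite, mul_one, mul_zero]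
  rw [Finset.sum_ite_eq]
  simp only [mem_range, Nat.lt_succ_iff]

theorem tay_sq (d : ℕ) : ∃ V : ℂ[X], tay d ^ 2 = 1 - X + X ^ (d + 1) * V := by
  have h : X ^ (d + 1) ∣ tay d ^ 2 - (1 - X) := by
    rw [X_pow_dvd_iff]
    intro n hn
    rw [coeff_sub, sq, coeff_mul]
    have h1 : ∑ p ∈ antidiagonal n, (tay d).coeff p.1 * (tay d).coeff p.2 =
        ((∑ p ∈ antidiagonal n, bt p.1 * bt p.2 : ℝ) : ℂ) := by
      rw [Complex.ofReal_sum]
      refine sum_congr rfl fun p hp => ?_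
      have hp' := mem_antidiagonal.mp hp
      rw [coeff_tay, coeff_tay, if_pos (by omega), if_pos (by omega), Complex.ofReal_mul]
    rw [h1]
    match n with
    | 0 => simp [bt]
    | 1 =>
      simp [Finset.Nat.antidiagonal_succ, bt, coeff_one, coeff_X]
      norm_num
    | (m + 2) =>
      rw [bt_conv]
      simp [coeff_one, coeff_X]
  obtain ⟨V, hV⟩ := h
  exact ⟨V, by rw [← hV]; ring⟩

theorem exps : Pool.Agent.Y674.HY.EXPS := by
  intro d
  obtain ⟨V, hV⟩ := tay_sq d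
  -- bounds on the unit disc
  obtain ⟨V0, hV0⟩ := (isCompact_closedBall (0 : ℂ) 1).exists_bound_of_continuousOn
    (f := fun q => V.eval q) V.continuous.continuousOn
  obtain ⟨M, hM⟩ := (isCompact_closedBall (0 : ℂ) 1).exists_bound_of_continuousOn
    (f := fun q => (tay d).eval q) (tay d).continuous.continuousOn
  have h0mem : (0 : ℂ) ∈ Metric.closedBall (0 : ℂ) 1 := by simp
  have hV00 : 0 ≤ V0 := (norm_nonneg _).trans (hV0 0 h0mem)
  have hM0 : 0 ≤ M := (norm_nonneg _).trans (hM 0 h0mem)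
  have hT0 : (tay d).eval 0 = 1 := by
    rw [← coeff_zero_eq_eval_zero, coeff_tay, if_pos (Nat.zero_le _)]
    simp [bt]
  obtain ⟨q0, hq0, hq0'⟩ := Metric.continuousAt_iff.mp ((tay d).continuous.continuousAt (x := 0)) 1
    one_pos
  rw [hT0] at hq0'
  refine ⟨bt, 2 * V0 + (2 + M) / q0 ^ (d + 1), rfl, bt_ne, by positivity, ?_⟩
  intro u z hu hz
  obtain ⟨q, hq⟩ : ∃ q : ℂ, q = z / (u : ℂ) ^ 2 := ⟨_, rfl⟩
  have huC : (u : ℂ) ≠ 0 := by exact_mod_cast hu.ne'
  have hqn : ‖q‖ = ‖z‖ / u ^ 2 := by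
    rw [hq, norm_div, norm_pow, Complex.norm_real, Real.norm_eq_abs, abs_of_pos hu]
  have hq2 : ‖q‖ ≤ 1 / 2 := by
    rw [hqn, div_le_iff₀ (by positivity)]
    linarith
  have hqm : q ∈ Metric.closedBall (0 : ℂ) 1 := by
    rw [mem_closedBall_zero_iff]
    linarith
  -- the square root
  obtain ⟨t, ht1, ht2⟩ : ∃ t : ℂ, t ^ 2 = 1 - q ∧ 0 ≤ t.re := by
    obtain ⟨w, hw⟩ := IsAlgClosed.exists_pow_nat_eq (1 - q) (n := 2) two_pos
    rcases le_total 0 w.re with h | h
    · exact ⟨w, hw, h⟩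
    · exact ⟨-w, by rw [neg_sq, hw], by rw [Complex.neg_re]; linarith⟩
  have hre : 1 / 2 ≤ t.re := by
    have h1 : (t ^ 2).re = 1 - q.re := by rw [ht1]; simp
    have h2 : (t ^ 2).re = t.re ^ 2 - t.im ^ 2 := by
      rw [sq, Complex.mul_re]
      ring
    have h3 : q.re ≤ 1 / 2 := (Complex.re_le_norm q).trans hq2
    by_contra hcon
    push Not at hcon
    have h4 : t.re ^ 2 < 1 / 4 := by nlinarith
    nlinarith [sq_nonneg t.im]
  have hmain : ‖t - (tay d).eval q‖ ≤ (2 * V0 + (2 + M) / q0 ^ (d + 1)) * ‖q‖ ^ (d + 1) := by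
    have hA : 0 ≤ 2 * V0 * ‖q‖ ^ (d + 1) := by positivity
    have hB : 0 ≤ (2 + M) / q0 ^ (d + 1) * ‖q‖ ^ (d + 1) := by positivity
    rcases lt_or_ge ‖q‖ q0 with hlt | hge
    · have h1 : (t - (tay d).eval q) * (t + (tay d).eval q) = - (q ^ (d + 1) * V.eval q) := by
        have h2 : ((tay d).eval q) ^ 2 = 1 - q + q ^ (d + 1) * V.eval q := by
          rw [← eval_pow, hV]
          simp
        linear_combination ht1 - h2
      have h3 : 1 / 2 ≤ ‖t + (tay d).eval q‖ := by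
        have h4 := @hq0' q (by rwa [dist_zero_right])
        rw [dist_eq_norm] at h4
        have h5 : 0 ≤ ((tay d).eval q).re := by
          have h6 := (Complex.abs_re_le_norm ((tay d).eval q - 1)).trans h4.le
          rw [abs_le, Complex.sub_re, Complex.one_re] at h6
          linarith [h6.1]
        have h7 := Complex.re_le_norm (t + (tay d).eval q)
        rw [Complex.add_re] at h7
        linarith
      have h8 : ‖t - (tay d).eval q‖ * ‖t + (tay d).eval q‖ ≤ ‖q‖ ^ (d + 1) * V0 := by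
        rw [← norm_mul, h1, norm_neg, norm_mul, norm_pow]
        exact mul_le_mul_of_nonneg_left (hV0 q hqm) (by positivity)
      have h9 : ‖t - (tay d).eval q‖ * (1 / 2) ≤ ‖t - (tay d).eval q‖ * ‖t + (tay d).eval q‖ :=
        mul_le_mul_of_nonneg_left h3 (norm_nonneg _)
      nlinarith
    · have h1 : ‖t‖ ≤ 2 := by
        have h2 : ‖t‖ ^ 2 ≤ 3 / 2 := by
          rw [← norm_pow, ht1]
          refine (norm_sub_le _ _).trans ?_
          rw [norm_one]
          linarith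
        nlinarith [norm_nonneg t]
      have h2 : ‖t - (tay d).eval q‖ ≤ 2 + M := (norm_sub_le _ _).trans (add_le_add h1 (hM q hqm))
      have h3 : 2 + M ≤ (2 + M) / q0 ^ (d + 1) * ‖q‖ ^ (d + 1) := by
        rw [div_mul_eq_mul_div, le_div_iff₀ (by positivity)]
        exact mul_le_mul_of_nonneg_left (pow_le_pow_left₀ hq0.le hge _) (by positivity)
      nlinarith
  refine ⟨u * t, ?_, ?_⟩
  · rw [mul_pow, ht1, hq]
    field_simp
  · have h1 : (tay d).eval q = ∑ j ∈ range (d + 1), (bt j : ℂ) * (z / (u : ℂ) ^ 2) ^ j := by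
      rw [tay, eval_finsetSum]
      refine sum_congr rfl fun j _ => ?_
      rw [eval_mul, eval_C, eval_pow, eval_X, hq]
    rw [← h1, ← mul_sub, norm_mul, Complex.norm_real, Real.norm_eq_abs, abs_of_pos hu, ← hqn]
    have := mul_le_mul_of_nonneg_left hmain hu.le
    linarith

end Pool.Agent.Y405.HY
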